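import Pool.Agent.Helper99.LZ.Bridge

set_option autoImplicit false

/-!
# MP_2b0227_gt: assembly of the master theorem (packet FIN of helper99)
-/

namespace Pool.Agent.Helper53.LZ

open Finset Filter Topology
open Pool.Agent.Helper99.LZ
open Pool.Agent.Helper52.C2 (Tg Fam Dir pre quad pwin1)

section

variable {E : Type} [Fintype E] [DecidableEq E] (A : Fam E)

theorem famCtx_P (p : ℤ) (v : Dir E → ℝ) :
    (famCtx A).P p v = ∑ a, cP A p a * v a := by
  show (∑ a, cP A p a • LinearMap.proj a : (Dir E → ℝ) →ₗ[ℝ] ℝ) v = _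
  rw [LinearMap.sum_apply]
  apply sum_congr rfl
  intro a _
  rw [LinearMap.smul_apply, LinearMap.proj_apply, smul_eq_mul]

theorem famCtx_Q (q : ℤ) (v : Dir E → ℝ) :
    (famCtx A).Q q v = ∑ a, cQ A q a * v a := by
  show (∑ a, cQ A q a • LinearMap.proj a : (Dir E → ℝ) →ₗ[ℝ] ℝ) v = _
  rw [LinearMap.sum_apply]
  apply sum_congr rfl
  intro a _
  rw [LinearMap.smul_apply, LinearMap.proj_apply, smul_eq_mul]

theorem famCtx_pr : (famCtx A).pr = toPr A.S := by
  have hP : ∀ p, (famCtx A).P p (famCtx A).Y = pre A.S.L p := by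
    intro p
    rw [famCtx_P]
    show ∑ a, cP A p a * (Pi.single Dir.Y (1 : ℝ) : Dir E → ℝ) a = _
    rw [Finset.sum_eq_single Dir.Y]
    · rw [Pi.single_eq_same, mul_one]
      rfl
    · intro b _ hb
      rw [Pi.single_eq_of_ne hb, mul_zero]
    · intro h
      exact absurd (mem_univ _) h
  have hQ : ∀ q, (famCtx A).Q q (famCtx A).X = pre A.S.R q := by
    intro q
    rw [famCtx_Q]
    show ∑ a, cQ A q a * (Pi.single Dir.X (1 : ℝ) : Dir E → ℝ) a = _
    rw [Finset.sum_eq_single Dir.X]
    · rw [Pi.single_eq_same, mul_one]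
      rfl
    · intro b _ hb
      rw [Pi.single_eq_of_ne hb, mul_zero]
    · intro h
      exact absurd (mem_univ _) h
  show (⟨fun p => (famCtx A).P p (famCtx A).Y, fun q => (famCtx A).Q q (famCtx A).X⟩ : Pr)
    = ⟨pre A.S.L, pre A.S.R⟩
  congr 1
  · exact funext hP
  · exact funext hQ

end

theorem onePos_zero {V : Type} [AddCommGroup V] [Module ℝ V] :
    OnePos (0 : V →ₗ[ℝ] V →ₗ[ℝ] ℝ) := by
  intro u v h
  exact absurd h (lt_irrefl _)

theorem prod_zero {V : Type} [AddCommGroup V] [Module ℝ V] (S : Ctx V) (m : ℤ → ℤ → ℝ)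
    (a b n : ℤ) (hS : ∀ p q, q - 2 ≤ p → S.D p q = 0)
    (hm : ∀ i i', m i i' ≠ 0 → a ≤ i ∧ i ≤ i' ∧ i' ≤ b) : S.prod m a b n = 0 := by
  unfold Ctx.prod
  apply sum_eq_zero
  intro i _
  apply sum_eq_zero
  intro i' _
  by_cases h : m i i' = 0
  · rw [h, zero_smul]
  · rw [hS _ _ (by have := (hm i i' h).2.1; omega), smul_zero]

theorem pwin1_symm {E : Type} [Fintype E] (A : Fam E) (hA : A.Good) (B : Tg)
    (r : Pool.Agent.Helper52.C2.Cpl B) (i : ℤ) (a b : Dir E) :
    pwin1 A B r i a b = pwin1 A B r i b a := by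
  cases a <;> cases b <;> try rfl
  rename_i e e'
  show ∑ q ∈ r.m.support, r.m q * A.G e e' (q.2 - q.1).toNat (i - q.1)
    = ∑ q ∈ r.m.support, r.m q * A.G e' e (q.2 - q.1).toNat (i - q.1)
  apply sum_congr rfl
  intro q _
  rw [hA.symm e e']

theorem final_of (hOPE : StmtOPE) {E : Type} [Fintype E] [DecidableEq E] (A : Fam E)
    (hA : A.Good) (B : Tg) (r : Pool.Agent.Helper52.C2.Cpl B) (i : ℤ)
    (h : OnePos (bil (pwin1 A B r i))) :
    Pool.Agent.Helper52.C2.OnePos (fun _ => True) (pwin1 A B r i) := by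
  rw [hOPE (Dir E) (fun _ => True) (pwin1 A B r i) (pwin1_symm A hA B r i)]
  intro u v _ _ huu
  exact h u v huu

/-- PACKET FIN. -/
theorem fin : StmtFIN := by
  intro hM hM0 hCPL hOPE hBRE hBRF hCP hCC hSCB hCM B hB
  have hgood := hBRE B hB
  obtain ⟨hB1, hB2, -⟩ := hBRF Empty (famE B) hgood
  have hpr : (famCtx (famE B)).pr = toPr B := famCtx_pr (famE B)
  by_cases hF : B.F = 0
  · by_cases hL : B.L = 0
    · -- everything is zero
      have hR : B.R = 0 := by
        have h := B.rel
        rw [hF, hL, zero_mul, zero_sub] at h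
        exact neg_eq_zero.1 h.symm
      refine ⟨⟨0, fun _ => le_refl _, fun c hc => absurd rfl hc, ?_, ?_⟩, ?_⟩
      · intro a
        rw [hL]
        simp
      · intro a
        rw [hR]
        simp
      · intro E _ _ A hA i
        refine ⟨0, fun v _ _ => ?_⟩
        have hz : ∀ (C : Tg) (k : ℤ), (C.mul B).F.coeff k = 0 := by
          intro C k
          show (C.R * B.F + C.F * B.L).coeff k = 0
          rw [hF, hL]
          simp
        have : ∀ a b, pwin1 A B ⟨0, fun _ => le_refl _, fun c hc => absurd rfl hc,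
            (by intro a; rw [hL]; simp), (by intro a; rw [hR]; simp)⟩ i a b = 0 := by
          intro a b
          cases a <;> cases b <;> first | exact hz _ _ | exact rfl
        unfold quad
        apply le_of_eq
        apply sum_eq_zero
        intro a _
        apply sum_eq_zero
        intro b _
        rw [this a b]
        ring
    · -- scalar case
      obtain ⟨a, b, hS⟩ := hB2 hF hL
      have hP : ∀ k, (toPr B).P k = (toPr B).Q k := by
        intro k
        have h := hS.F0 k
        rw [hpr] at h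
        have h' : (toPr B).P k - (toPr B).Q k = 0 := h
        linarith
      have hRL : ∀ k, (toPr B).R k = (toPr B).L k := by
        intro k
        show (toPr B).Q k - (toPr B).Q (k - 1) = (toPr B).P k - (toPr B).P (k - 1)
        rw [hP, hP]
      have hLout : ∀ k, ¬ (a ≤ k ∧ k ≤ b) → (toPr B).L k = 0 := by
        intro k hk
        show (toPr B).P k - (toPr B).P (k - 1) = 0
        have hlo := hS.lo
        have hhi := hS.hi
        rw [hpr] at hlo hhi
        by_cases h1 : k < a
        · rw [hlo k h1, hlo (k - 1) (by omega), sub_zero]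
        · rw [hhi k (by omega), hhi (k - 1) (by omega), sub_self]
      have hLpos : ∀ k, a ≤ k → k ≤ b → 0 < (toPr B).L k := by
        have := hS.Lpos
        rw [hpr] at this
        exact this
      set m : ℤ → ℤ → ℝ := fun i i' => if i = i' ∧ a ≤ i ∧ i ≤ b then (toPr B).L i else 0
        with hm
      have hnn : ∀ i i', 0 ≤ m i i' := by
        intro i i'
        simp only [hm]
        split_ifs with h
        · exact (hLpos i h.2.1 h.2.2).le
        · exact le_refl _
      have hsupp : ∀ i i', m i i' ≠ 0 → a ≤ i ∧ i ≤ i' ∧ i' ≤ b := by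
        intro i i' h
        simp only [hm] at h
        split_ifs at h with h1
        · omega
        · exact absurd rfl h
      have hrow : ∀ i, ∑ i' ∈ Icc a b, m i i' = (toPr B).L i := by
        intro i
        by_cases h : a ≤ i ∧ i ≤ b
        · rw [Finset.sum_eq_single i]
          · simp only [hm]
            rw [if_pos ⟨trivial, h⟩]
          · intro j _ hj
            simp only [hm]
            rw [if_neg (fun h1 => hj h1.1.symm)]
          · intro h1
            exact absurd (mem_Icc.2 h) h1
        · rw [hLout i h]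
          apply sum_eq_zero
          intro j _
          simp only [hm]
          rw [if_neg (fun h1 => h h1.2)]
      have hcol : ∀ i', ∑ i ∈ Icc a b, m i i' = (toPr B).R i' := by
        intro i'
        rw [hRL]
        by_cases h : a ≤ i' ∧ i' ≤ b
        · rw [Finset.sum_eq_single i']
          · simp only [hm]
            rw [if_pos ⟨trivial, h⟩]
          · intro j _ hj
            simp only [hm]
            rw [if_neg (fun h1 => hj h1.1)]
          · intro h1
            exact absurd (mem_Icc.2 h) h1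
        · rw [hLout i' h]
          apply sum_eq_zero
          intro j _
          simp only [hm]
          rw [if_neg (fun h1 => h (by rw [← h1.1]; exact h1.2))]
      obtain ⟨r, hr⟩ := hCC hCM B a b m hnn hsupp hrow hcol
      refine ⟨r, fun E _ _ A hA i => final_of hOPE A hA B r i ?_⟩
      rw [hr E A i]
      have hprod : (famCtx A).prod m a b (i + 2)
          = ∑ k ∈ Icc a b, (famCtx (famE B)).pr.L k
            • (famCtx A).D (i + 2 - 2 - k) (i + 2 - k) := by
        unfold Ctx.prod
        apply sum_congr rfl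
        intro k hk
        rw [Finset.sum_eq_single k]
        · simp only [hm]
          rw [if_pos ⟨trivial, mem_Icc.1 hk⟩, hpr]
        · intro j _ hj
          simp only [hm]
          rw [if_neg (fun h1 => hj h1.1.symm), zero_smul]
        · intro h1
          exact absurd hk h1
      obtain ⟨h1, h2, h3⟩ := hBRF E A hA
      by_cases hAF : A.S.F = 0
      · by_cases hAL : A.S.L = 0
        · rw [prod_zero _ m a b (i + 2) (h3 hAF hAL) hsupp]
          exact onePos_zero
        · obtain ⟨a₂, b₂, h4⟩ := h2 hAF hAL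
          rw [hprod]
          exact hSCB _ _ (famCtx A) (famCtx (famE B)) a b a₂ b₂ (i + 2) _ _ hS (Or.inr h4)
      · obtain ⟨a₂, b₂, h4⟩ := h1 hAF
        rw [hprod]
        exact hSCB _ _ (famCtx A) (famCtx (famE B)) a b a₂ b₂ (i + 2) (LinearMap.proj Dir.X) _ hS
          (Or.inl h4)
  · -- main case
    obtain ⟨a, b, hS⟩ := hB1 hF
    have hT : (toPr B).HH1 a b := by
      rw [← hpr]
      exact hCP _ _ a b hS
    obtain ⟨m, hm⟩ := hCPL (toPr B) a b hT.toReg
    obtain ⟨r, hr⟩ := hCC hCM B a b m hm.nn hm.supp hm.row hm.col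
    refine ⟨r, fun E _ _ A hA i => final_of hOPE A hA B r i ?_⟩
    rw [hr E A i]
    obtain ⟨h1, h2, h3⟩ := hBRF E A hA
    by_cases hAF : A.S.F = 0
    · by_cases hAL : A.S.L = 0
      · rw [prod_zero _ m a b (i + 2) (h3 hAF hAL) hm.supp]
        exact onePos_zero
      · obtain ⟨a₂, b₂, h4⟩ := h2 hAF hAL
        exact hM0 _ (famCtx A) (toPr B) a b a₂ b₂ (i + 2) _ m h4 hT hm
    · obtain ⟨a₂, b₂, h4⟩ := h1 hAF
      exact hM _ (famCtx A) (toPr B) a b a₂ b₂ (i + 2) m h4 hT hm

end Pool.Agent.Helper53.LZ
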