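import Pool.Agent.Helper99.LZ.Goals

set_option autoImplicit false

/-!
# MP_2b0227_gt: the master theorem by a limit (packet LIM of helper99)
-/

namespace Pool.Agent.Helper53.LZ

open Finset Filter Topology
open Pool.Agent.Helper99.LZ

theorem prod_apply {V : Type} [AddCommGroup V] [Module ℝ V] (S : Ctx V) (m : ℤ → ℤ → ℝ)
    (a b n : ℤ) (u v : V) :
    S.prod m a b n u v
      = ∑ i ∈ Icc a b, ∑ i' ∈ Icc a b, m i i' * S.D (n - 2 - i) (n - i') u v := by
  unfold Ctx.prod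
  rw [LinearMap.sum_apply, LinearMap.sum_apply]
  apply sum_congr rfl
  intro i _
  rw [LinearMap.sum_apply, LinearMap.sum_apply]
  apply sum_congr rfl
  intro i' _
  rw [LinearMap.smul_apply, LinearMap.smul_apply, smul_eq_mul]

/-- PACKET LIM. -/
theorem master (h1 : StmtCORE) (h2 : StmtPERT) (h3 : StmtCONT) (h4 : StmtNOGAP) :
    StmtMASTER := by
  intro V _ _ S T a b a₂ b₂ n m hS hT hC
  obtain ⟨N, hN⟩ := h2 V S a₂ b₂ hS n a b
  have hone : ∀ ε : ℝ, 0 < ε → OnePos ((S.pert ε N).prod m a b n) := fun ε hε =>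
    h1 V (S.pert ε N) T a b (a₂ - N) (b₂ + N) n m (hN ε hε).1 hT (h4 T a b hT) hC (hN ε hε).2
  have hlim : ∀ u v : V, Tendsto (fun ε : ℝ => (S.pert ε N).prod m a b n u v) (𝓝[>] 0)
      (𝓝 (S.prod m a b n u v)) := by
    intro u v
    simp only [prod_apply]
    apply tendsto_finsetSum
    intro i _
    apply tendsto_finsetSum
    intro i' _
    exact (h3 V S N (n - 2 - i) (n - i') u v).const_mul _
  intro u v huu
  have hpos : ∀ᶠ ε : ℝ in 𝓝[>] 0, 0 < (S.pert ε N).prod m a b n u u :=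
    (hlim u u).eventually_const_lt huu
  have hε : ∀ᶠ ε : ℝ in 𝓝[>] 0, (0 : ℝ) < ε := eventually_mem_nhdsWithin
  apply le_of_tendsto_of_tendsto ((hlim u u).mul (hlim v v)) ((hlim u v).pow 2)
  filter_upwards [hpos, hε] with ε h5 h6
  exact hone ε h6 u v h5

end Pool.Agent.Helper53.LZ
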